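import Pool.Agent.R555.KB

/-!
# MP_407208_co: a board sharing more long words than a corner-side swap
-/

namespace Pool.Agent.Results.MP_407208_co.InteriorSwap

/-- Cells of the `n × n` grid. -/
abbrev Cell (n : ℕ) := Fin n × Fin n

/-- Adjacency in the `n × n` king's graph. -/
def Adj {n : ℕ} (p q : Cell n) : Prop :=
  p ≠ q ∧ (p.1.val ≤ q.1.val + 1 ∧ q.1.val ≤ p.1.val + 1) ∧
    (p.2.val ≤ q.2.val + 1 ∧ q.2.val ≤ p.2.val + 1)

instance {n : ℕ} (p q : Cell n) : Decidable (Adj p q) := by unfold Adj; infer_instance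

/-- A board: a bijection from the cells to the `n ^ 2` labels. -/
abbrev Board (n : ℕ) := Cell n ≃ Fin (n ^ 2)

/-- The set of `k`-letter words of a board. -/
def Words {n : ℕ} (k : ℕ) (B : Board n) : Set (List (Fin (n ^ 2))) :=
  {w | w.length = k ∧ w.Nodup ∧ w.IsChain (fun a b => Adj (B.symm a) (B.symm b))}

/-- The number of `k`-letter words in common. -/
noncomputable def common {n : ℕ} (k : ℕ) (B B' : Board n) : ℕ := (Words k B ∩ Words k B').ncard

/-- Two boards are equivalent if they have the same words of every length `≥ 2`. -/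
def Equivalent {n : ℕ} (B B' : Board n) : Prop := ∀ k, 2 ≤ k → Words k B = Words k B'

/-- Corner cells. -/
def IsCorner {n : ℕ} (p : Cell n) : Prop :=
  (p.1.val = 0 ∨ p.1.val + 1 = n) ∧ (p.2.val = 0 ∨ p.2.val + 1 = n)

/-- Boundary cells. -/
def IsBoundary {n : ℕ} (p : Cell n) : Prop :=
  (p.1.val = 0 ∨ p.1.val + 1 = n) ∨ (p.2.val = 0 ∨ p.2.val + 1 = n)

/-- Two cells share an edge. -/
def ShareEdge {n : ℕ} (p q : Cell n) : Prop :=
  (p.1 = q.1 ∧ (p.2.val + 1 = q.2.val ∨ q.2.val + 1 = p.2.val)) ∨
    (p.2 = q.2 ∧ (p.1.val + 1 = q.1.val ∨ q.1.val + 1 = p.1.val))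

/-- `Bs` is a corner-side swap of `B`. -/
def IsCornerSideSwap {n : ℕ} (B Bs : Board n) : Prop :=
  ∃ c s : Cell n, IsCorner c ∧ IsBoundary s ∧ ¬ IsCorner s ∧ ShareEdge c s ∧
    Bs = (Equiv.swap c s).trans B

instance {n : ℕ} (p : Cell n) : Decidable (IsCorner p) := by unfold IsCorner; infer_instance
instance {n : ℕ} (p : Cell n) : Decidable (IsBoundary p) := by unfold IsBoundary; infer_instance
instance {n : ℕ} (p q : Cell n) : Decidable (ShareEdge p q) := by
  unfold ShareEdge; infer_instance

open Pool.Agent.R555.KB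

/-- King adjacency on cell numbers `4 r + c`. -/
def kadj (a b : ℕ) : Bool :=
  a != b && (a / 4 - b / 4) ≤ 1 && (b / 4 - a / 4) ≤ 1 && (a % 4 - b % 4) ≤ 1 &&
    (b % 4 - a % 4) ≤ 1

/-- The swap of two cell numbers. -/
def swp (x y a : ℕ) : ℕ := if a = x then y else if a = y then x else a

/-- Common adjacency after a swap. -/
def rel (x y : ℕ) (a b : ℕ) : Bool := kadj a b && kadj (swp x y a) (swp x y b)

/-- All totals for the swap of `x` and `y`. -/
def vals (x y : ℕ) : List ℕ :=
  totals 64 16 (nbList 16 (rel x y)) (maskList 64 16) 15 (initQ 64 16)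

set_option maxRecDepth 100000 in
theorem vals_corner : ∀ p ∈ [(0, 1), (0, 4), (3, 2), (3, 7), (12, 8), (12, 13), (15, 14),
    (15, 11)], vals p.1 p.2 = [16, 80, 372, 1534, 5534, 17530, 48788, 119646, 257326, 477928,
      750142, 968224, 995826, 779474, 414996, 109844] := by
  decide +kernel

set_option maxRecDepth 100000 in
theorem vals_inner : (vals 10 11).drop 11 = [1081252, 1237976, 1048484, 582264, 158224] := by
  decide +kernel

/-- The numbering of the cells. -/
def e : Cell 4 ≃ Fin 16 := finProdFinEquiv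

theorem kadj_iff : ∀ p q : Cell 4, kadj (e p).val (e q).val = true ↔ Adj p q := by
  decide +kernel

theorem swp_eq (c s p : Cell 4) :
    swp (e c).val (e s).val (e p).val = (e (Equiv.swap c s p)).val := by
  have hinj : ∀ a b : Cell 4, (e a).val = (e b).val ↔ a = b := by
    intro a b
    rw [← Fin.ext_iff]
    exact e.injective.eq_iff
  unfold swp
  rw [Equiv.swap_apply_def]
  simp only [hinj]
  split_ifs <;> rfl

theorem isChain_and {α : Type*} (R S : α → α → Prop) (l : List α) :
    (l.IsChain R ∧ l.IsChain S) ↔ l.IsChain (fun a b => R a b ∧ S a b) := by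
  induction l with
  | nil => simp
  | cons a l ih =>
    cases l with
    | nil => simp
    | cons b l =>
      simp only [List.isChain_cons_cons]
      rw [← ih]
      tauto

theorem common_eq (B : Board 4) (c s : Cell 4) (k : ℕ) :
    common k B ((Equiv.swap c s).trans B) =
      {l : List (Fin 16) | l.length = k ∧ l.Nodup ∧
        l.IsChain (fun a b => rel (e c).val (e s).val a.val b.val = true)}.ncard := by
  unfold common
  let φ : Fin (4 ^ 2) ≃ Fin 16 := B.symm.trans e
  have hφ : Function.Injective (List.map φ) := List.map_injective_iff.mpr φ.injective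
  rw [← Set.ncard_image_of_injective _ hφ]
  congr 1
  have hrel : ∀ a b : Fin (4 ^ 2), rel (e c).val (e s).val (φ a).val (φ b).val = true ↔
      (Adj (B.symm a) (B.symm b) ∧ Adj (((Equiv.swap c s).trans B).symm a)
        (((Equiv.swap c s).trans B).symm b)) := by
    intro a b
    unfold rel
    simp only [φ, Equiv.trans_apply, swp_eq, Bool.and_eq_true, kadj_iff, Equiv.symm_trans_apply,
      Equiv.symm_swap]
  have hchain : ∀ w : List (Fin (4 ^ 2)),
      (w.map φ).IsChain (fun a b => rel (e c).val (e s).val a.val b.val = true) ↔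
      (w.IsChain (fun a b => Adj (B.symm a) (B.symm b)) ∧
        w.IsChain (fun a b => Adj (((Equiv.swap c s).trans B).symm a)
        (((Equiv.swap c s).trans B).symm b))) := by
    intro w
    rw [List.isChain_map, isChain_and]
    simp only [hrel]
  ext l
  simp only [Set.mem_image, Set.mem_inter_iff, Words, Set.mem_ofPred_eq]
  constructor
  · rintro ⟨w, ⟨⟨h1, h2, h3⟩, _, _, h4⟩, rfl⟩
    exact ⟨by simpa using h1, h2.map φ.injective, (hchain w).mpr ⟨h3, h4⟩⟩
  · rintro ⟨h1, h2, h3⟩
    have hl : (l.map φ.symm).map φ = l := by simp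
    refine ⟨l.map φ.symm, ?_, hl⟩
    rw [← hl] at h3
    rw [hchain] at h3
    have h2' : (l.map φ.symm).Nodup := h2.map φ.symm.injective
    exact ⟨⟨by simpa using h1, h2', h3.1⟩, by simpa using h1, h2', h3.2⟩

theorem vals_spec (x y : ℕ) : vals x y = (List.range 16).map (fun i =>
    {l : List (Fin 16) | l.length = i + 1 ∧ l.Nodup ∧
      l.IsChain (fun a b => rel x y a.val b.val = true)}.ncard) :=
  totals_init (N := 16) 64 (by norm_num) (rel x y) 15 (by norm_num) (by norm_num)

theorem common_vals (B : Board 4) (c s : Cell 4) (i : ℕ) (hi : i < 16) :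
    common (i + 1) B ((Equiv.swap c s).trans B) = (vals (e c).val (e s).val).getD i 0 := by
  rw [common_eq, vals_spec, List.getD_eq_getElem?_getD, List.getElem?_map,
    List.getElem?_range hi]
  rfl

theorem corner_cases : ∀ c s : Cell 4, IsCorner c → IsBoundary s → ¬ IsCorner s → ShareEdge c s →
    ((e c).val, (e s).val) ∈ [(0, 1), (0, 4), (3, 2), (3, 7), (12, 8), (12, 13), (15, 14),
    (15, 11)] := by
  decide +kernel

theorem not_equivalent (B : Board 4) :
    ¬ Equivalent B ((Equiv.swap ((2, 2) : Cell 4) (2, 3)).trans B) := by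
  intro h
  have h2 := h 2 le_rfl
  have hw : [B (2, 2), B (1, 1)] ∈ Words 2 B := by
    refine ⟨rfl, ?_, ?_⟩
    · simp
    · simp [Adj]
  rw [h2] at hw
  have h3 := hw.2.2
  simp only [List.isChain_cons_cons, Equiv.symm_trans_apply, Equiv.symm_apply_apply,
    Equiv.symm_swap] at h3
  have h4 := h3.1
  rw [Equiv.swap_apply_left, Equiv.swap_apply_of_ne_of_ne (by decide) (by decide)] at h4
  revert h4
  decide

/-- **MP_407208_co, Q1, negative answer.** On the `4 × 4` board, for every board `B`, every
corner-side swap `Bs` of `B` and every `k ∈ {12, 13, 14, 15, 16}`, the board `B'` obtained from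
`B` by exchanging the labels of the cells `(2,2)` and `(2,3)` (an interior cell and a
neighbouring boundary cell) is not equivalent to `B` and has strictly more `k`-letter words in
common with `B` than `Bs` has.  For `k = 16` the numbers are `158224 > 109844`. -/
theorem result (B Bs : Board 4) (hs : IsCornerSideSwap B Bs) :
    ∃ B' : Board 4, ¬ Equivalent B B' ∧
      (∀ k, 12 ≤ k → k ≤ 16 → common k B Bs < common k B B') ∧
      common 16 B Bs = 109844 ∧ common 16 B B' = 158224 := by
  obtain ⟨c, s, hc, hs1, hs2, hcs, rfl⟩ := hs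
  refine ⟨(Equiv.swap ((2, 2) : Cell 4) (2, 3)).trans B, not_equivalent B, ?_⟩
  have hv := vals_corner _ (corner_cases c s hc hs1 hs2 hcs)
  dsimp only at hv
  have e1 : (e (2, 2)).val = 10 := by decide
  have e2 : (e (2, 3)).val = 11 := by decide
  have hin : ∀ i, (vals 10 11).getD (11 + i) 0
      = ([1081252, 1237976, 1048484, 582264, 158224] : List ℕ).getD i 0 := by
    intro i
    rw [← vals_inner, List.getD_eq_getElem?_getD, List.getD_eq_getElem?_getD,
      List.getElem?_drop]
  have key : ∀ i, i < 5 → common (11 + i + 1) B ((Equiv.swap c s).trans B)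
      = ([968224, 995826, 779474, 414996, 109844] : List ℕ).getD i 0 ∧
      common (11 + i + 1) B ((Equiv.swap ((2, 2) : Cell 4) (2, 3)).trans B)
      = ([1081252, 1237976, 1048484, 582264, 158224] : List ℕ).getD i 0 := by
    intro i hi
    rw [common_vals B c s (11 + i) (by omega), common_vals B _ _ (11 + i) (by omega), e1, e2,
      hin i, hv]
    refine ⟨?_, rfl⟩
    interval_cases i <;> rfl
  refine ⟨?_, (key 4 (by norm_num)).1, (key 4 (by norm_num)).2⟩
  intro k h1 h2
  obtain ⟨i, rfl⟩ : ∃ i, k = 11 + i + 1 := ⟨k - 12, by omega⟩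
  have hi : i < 5 := by omega
  rw [(key i hi).1, (key i hi).2]
  interval_cases i <;> decide

end Pool.Agent.Results.MP_407208_co.InteriorSwap
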